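import Pool.Agent.W117.GH.Stm

/-! GH-EX: global existence for the regular singular initial value problem -/

set_option autoImplicit false

open MeasureTheory Filter Topology Set

noncomputable section

namespace Pool.Agent.W174.GH

open Pool.Agent.W117.GH

/-- the double integral -/
def J (u : ℝ → ℝ) (x : ℝ) : ℝ := ∫ t in (0:ℝ)..x, ∫ θ in (0:ℝ)..1, u (θ * t)

theorem inner_cont {u : ℝ → ℝ} (hu : Continuous u) :
    Continuous (fun t : ℝ => ∫ θ in (0:ℝ)..1, u (θ * t)) := by
  apply intervalIntegral.continuous_parametric_intervalIntegral_of_continuous'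
  have : Function.uncurry (fun (t θ : ℝ) => u (θ * t)) = fun p : ℝ × ℝ => u (p.2 * p.1) := by
    funext p; rfl
  rw [this]
  exact hu.comp (continuous_snd.mul continuous_fst)

theorem J_cont {u : ℝ → ℝ} (hu : Continuous u) : Continuous (J u) := by
  unfold J
  exact intervalIntegral.continuous_primitive
    (fun a b => (inner_cont hu).intervalIntegrable a b) 0

theorem J_sub {u v : ℝ → ℝ} (hu : Continuous u) (hv : Continuous v) (x : ℝ) :
    J u x - J v x = J (fun s => u s - v s) x := by
  unfold J
  rw [← intervalIntegral.integral_sub ((inner_cont hu).intervalIntegrable _ _)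
    ((inner_cont hv).intervalIntegrable _ _)]
  apply intervalIntegral.integral_congr
  intro t _
  have h1 : Continuous (fun θ : ℝ => u (θ * t)) := hu.comp (continuous_id.mul continuous_const)
  have h2 : Continuous (fun θ : ℝ => v (θ * t)) := hv.comp (continuous_id.mul continuous_const)
  exact (intervalIntegral.integral_sub (h1.intervalIntegrable _ _)
    (h2.intervalIntegrable _ _)).symm

theorem int_exp_nonneg {lam K x : ℝ} (hl : 0 < lam) (hK : 0 ≤ K) (hx : 0 ≤ x) :
    ∫ t in (0:ℝ)..x, K * Real.exp (lam * |t|) = K * (Real.exp (lam * |x|) - 1) / lam := by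
  have h1 : ∫ t in (0:ℝ)..x, K * Real.exp (lam * |t|) =
      ∫ t in (0:ℝ)..x, K * Real.exp (lam * t) := by
    apply intervalIntegral.integral_congr
    intro t ht
    rw [uIcc_of_le hx] at ht
    simp only [abs_of_nonneg ht.1]
  rw [h1, abs_of_nonneg hx]
  have h2 : ∀ t ∈ uIcc 0 x, HasDerivAt (fun t : ℝ => K * Real.exp (lam * t) / lam)
      (K * Real.exp (lam * t)) t := by
    intro t _
    have h3 : HasDerivAt (fun t : ℝ => lam * t) lam t := by
      simpa using (hasDerivAt_id t).const_mul lam
    have h4 := ((h3.exp).const_mul K).div_const lam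
    have h5 : K * (Real.exp (lam * t) * lam) / lam = K * Real.exp (lam * t) := by
      rw [← mul_assoc, mul_div_assoc, div_self hl.ne', mul_one]
    rw [← h5]
    exact h4
  rw [intervalIntegral.integral_eq_sub_of_hasDerivAt h2]
  · simp
    ring
  · apply Continuous.intervalIntegrable
    fun_prop

theorem int_exp_bound {lam K x : ℝ} (hl : 0 < lam) (hK : 0 ≤ K) :
    |∫ t in (0:ℝ)..x, K * Real.exp (lam * |t|)| ≤ K * Real.exp (lam * |x|) / lam := by
  have key : ∀ y : ℝ, 0 ≤ y → |∫ t in (0:ℝ)..y, K * Real.exp (lam * |t|)| ≤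
      K * Real.exp (lam * |y|) / lam := by
    intro y hy
    rw [int_exp_nonneg hl hK hy]
    have h1 : 1 ≤ Real.exp (lam * |y|) := Real.one_le_exp (by positivity)
    rw [abs_of_nonneg (div_nonneg (mul_nonneg hK (by linarith)) hl.le)]
    apply div_le_div_of_nonneg_right _ hl.le
    nlinarith
  rcases le_total 0 x with hx | hx
  · exact key x hx
  · have h2 : ∫ t in (0:ℝ)..x, K * Real.exp (lam * |t|) =
        -∫ t in (0:ℝ)..(-x), K * Real.exp (lam * |t|) := by
      have h3 : ∫ t in (0:ℝ)..x, K * Real.exp (lam * |t|) =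
          ∫ t in (0:ℝ)..x, (fun s : ℝ => K * Real.exp (lam * |s|)) (-t) := by
        apply intervalIntegral.integral_congr
        intro t _
        simp only [abs_neg]
      rw [h3, intervalIntegral.integral_comp_neg (fun s : ℝ => K * Real.exp (lam * |s|)),
        intervalIntegral.integral_symm]
      simp
    rw [h2, abs_neg]
    have := key (-x) (by linarith)
    rwa [abs_neg x] at this

/-- the key estimate -/
theorem J_bound {u : ℝ → ℝ} {lam K : ℝ} (hl : 0 < lam) (hK : 0 ≤ K)
    (h : ∀ s, |u s| ≤ K * Real.exp (lam * |s|)) (x : ℝ) :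
    |J u x| ≤ K * Real.exp (lam * |x|) / lam := by
  unfold J
  have h1 : ∀ t : ℝ, |∫ θ in (0:ℝ)..1, u (θ * t)| ≤ K * Real.exp (lam * |t|) := by
    intro t
    have h2 : ∀ θ ∈ Set.uIoc (0:ℝ) 1, ‖u (θ * t)‖ ≤ K * Real.exp (lam * |t|) := by
      intro θ hθ
      rw [Set.uIoc_of_le zero_le_one] at hθ
      rw [Real.norm_eq_abs]
      refine (h _).trans ?_
      apply mul_le_mul_of_nonneg_left _ hK
      apply Real.exp_le_exp.mpr
      apply mul_le_mul_of_nonneg_left _ hl.le
      rw [abs_mul, abs_of_pos hθ.1]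
      have := abs_nonneg t
      nlinarith [hθ.2]
    have h3 := intervalIntegral.norm_integral_le_of_norm_le_const h2
    rw [Real.norm_eq_abs] at h3
    simpa using h3
  have h4 : ‖∫ t in (0:ℝ)..x, ∫ θ in (0:ℝ)..1, u (θ * t)‖ ≤
      |∫ t in (0:ℝ)..x, K * Real.exp (lam * |t|)| := by
    apply intervalIntegral.norm_integral_le_abs_of_norm_le
    · exact Eventually.of_forall (fun t => by rw [Real.norm_eq_abs]; exact h1 t)
    · apply Continuous.intervalIntegrable
      fun_prop
  rw [Real.norm_eq_abs] at h4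
  exact h4.trans (int_exp_bound hl hK)

section
variable (F : ℝ → ℝ → ℝ) (C lam : ℝ)

/-- the nonlinearity along a rescaled bounded function -/
def Nu (a : ℝ) (g : ℝ → ℝ) (s : ℝ) : ℝ := F s (a + Real.exp (lam * |s|) * g s)

theorem Nu_cont (hF : Continuous (Function.uncurry F)) (a : ℝ) {g : ℝ → ℝ} (hg : Continuous g) :
    Continuous (Nu F lam a g) := by
  unfold Nu
  have h1 : Continuous (fun s : ℝ => (s, a + Real.exp (lam * |s|) * g s)) := by fun_prop
  exact hF.comp h1

theorem scaled {x y K lam : ℝ} (h : |y| ≤ K * Real.exp (lam * |x|) / lam) :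
    |Real.exp (-(lam * |x|)) * y| ≤ K / lam := by
  rw [abs_mul, abs_of_pos (Real.exp_pos _)]
  calc Real.exp (-(lam * |x|)) * |y|
      ≤ Real.exp (-(lam * |x|)) * (K * Real.exp (lam * |x|) / lam) :=
        mul_le_mul_of_nonneg_left h (Real.exp_pos _).le
    _ = K / lam * (Real.exp (-(lam * |x|)) * Real.exp (lam * |x|)) := by ring
    _ = K / lam := by rw [← Real.exp_add]; simp

/-- the operator -/
def TT (hF : Continuous (Function.uncurry F)) (hC : ∀ x y, |F x y| ≤ C) (hl : 0 < lam) (a : ℝ)
    (g : BoundedContinuousFunction ℝ ℝ) : BoundedContinuousFunction ℝ ℝ :=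
  BoundedContinuousFunction.ofNormedAddCommGroup
    (fun x => Real.exp (-(lam * |x|)) * J (Nu F lam a g) x)
    (by
      have h1 := J_cont (Nu_cont F lam hF a g.continuous)
      have h2 : Continuous (fun x : ℝ => Real.exp (-(lam * |x|))) := by fun_prop
      exact h2.mul h1)
    (C / lam)
    (by
      intro x
      rw [Real.norm_eq_abs]
      have hC0 : 0 ≤ C := (abs_nonneg _).trans (hC 0 0)
      apply scaled
      apply J_bound hl hC0
      intro s
      have h1 : 1 ≤ Real.exp (lam * |s|) := Real.one_le_exp (by positivity)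
      have h2 := hC s (a + Real.exp (lam * |s|) * g s)
      unfold Nu
      nlinarith)

theorem TT_apply (hF : Continuous (Function.uncurry F)) (hC : ∀ x y, |F x y| ≤ C) (hl : 0 < lam)
    (a : ℝ) (g : BoundedContinuousFunction ℝ ℝ) (x : ℝ) :
    TT F C lam hF hC hl a g x = Real.exp (-(lam * |x|)) * J (Nu F lam a g) x := rfl

theorem TT_dist (hF : Continuous (Function.uncurry F)) (hC : ∀ x y, |F x y| ≤ C) (hl : 0 < lam)
    {L : ℝ} (hL : 0 ≤ L) (hL2 : lam = 2 * L) (hlip : ∀ x y y', |F x y - F x y'| ≤ L * |y - y'|)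
    (a b : ℝ) (g₁ g₂ : BoundedContinuousFunction ℝ ℝ) :
    dist (TT F C lam hF hC hl a g₁) (TT F C lam hF hC hl b g₂) ≤ (|a - b| + dist g₁ g₂) / 2 := by
  have h0 : 0 ≤ |a - b| + dist g₁ g₂ := add_nonneg (abs_nonneg _) dist_nonneg
  rw [BoundedContinuousFunction.dist_le (by positivity)]
  intro x
  rw [Real.dist_eq, TT_apply, TT_apply, ← mul_sub,
    J_sub (Nu_cont F lam hF a g₁.continuous) (Nu_cont F lam hF b g₂.continuous)]
  have h1 : |J (fun s => Nu F lam a g₁ s - Nu F lam b g₂ s) x| ≤
      (L * (|a - b| + dist g₁ g₂)) * Real.exp (lam * |x|) / lam := by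
    apply J_bound hl (mul_nonneg hL h0)
    intro s
    unfold Nu
    refine (hlip _ _ _).trans ?_
    have h2 : 1 ≤ Real.exp (lam * |s|) := Real.one_le_exp (by positivity)
    have h3 : |g₁ s - g₂ s| ≤ dist g₁ g₂ := by
      rw [← Real.dist_eq]
      exact BoundedContinuousFunction.dist_coe_le_dist s
    have h4 : a + Real.exp (lam * |s|) * g₁ s - (b + Real.exp (lam * |s|) * g₂ s) =
        (a - b) + Real.exp (lam * |s|) * (g₁ s - g₂ s) := by ring
    rw [h4, mul_assoc]
    apply mul_le_mul_of_nonneg_left _ hL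
    refine (abs_add_le _ _).trans ?_
    rw [abs_mul, abs_of_pos (Real.exp_pos _)]
    have h5 := abs_nonneg (a - b)
    have h6 := mul_le_mul_of_nonneg_left h3 (Real.exp_pos (lam * |s|)).le
    nlinarith
  have h7 := scaled h1
  have h8 : L * (|a - b| + dist g₁ g₂) / lam = (|a - b| + dist g₁ g₂) / 2 := by
    rw [hL2]
    have : L ≠ 0 := by
      intro h
      rw [hL2, h] at hl
      simp at hl
    field_simp
  rwa [h8] at h7

end

theorem main : PropEX := by
  rintro F hF ⟨C, hC⟩ ⟨L0, hL0⟩
  obtain ⟨L, hLpos, hlip⟩ : ∃ L : ℝ, 0 < L ∧ ∀ x y y', |F x y - F x y'| ≤ L * |y - y'| := by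
    refine ⟨max L0 1, by positivity, ?_⟩
    intro x y y'
    refine (hL0 x y y').trans ?_
    exact mul_le_mul_of_nonneg_right (le_max_left _ _) (abs_nonneg _)
  obtain ⟨lam, hlam⟩ : ∃ lam : ℝ, lam = 2 * L := ⟨_, rfl⟩
  have hl : 0 < lam := by rw [hlam]; positivity
  have hd := TT_dist F C lam hF hC hl hLpos.le hlam hlip
  have hfix : ∀ a : ℝ, ∃ g : BoundedContinuousFunction ℝ ℝ, TT F C lam hF hC hl a g = g := by
    intro a
    have hcon : ContractingWith (1 / 2) (TT F C lam hF hC hl a) := by
      constructor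
      · norm_num
      · apply LipschitzWith.of_dist_le_mul
        intro g₁ g₂
        have := hd a a g₁ g₂
        simp only [sub_self, abs_zero, zero_add] at this
        refine this.trans (le_of_eq ?_)
        push_cast
        ring
    exact ⟨hcon.fixedPoint, hcon.fixedPoint_isFixedPt⟩
  choose G hG using hfix
  refine ⟨fun a x => a + Real.exp (lam * |x|) * G a x, ?_, ?_⟩
  · intro a
    refine ⟨?_, ?_⟩
    · have h1 := (G a).continuous
      fun_prop
    · intro x
      have h1 : G a x = Real.exp (-(lam * |x|)) * J (Nu F lam a (G a)) x := by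
        conv_lhs => rw [← hG a]
        rfl
      show a + Real.exp (lam * |x|) * G a x = a + J (Nu F lam a (G a)) x
      rw [h1, ← mul_assoc, ← Real.exp_add]
      simp
  · intro R
    refine ⟨1 + Real.exp (lam * R), ?_⟩
    intro a b x hx
    have h1 : dist (G a) (G b) ≤ |a - b| := by
      have h2 := hd a b (G a) (G b)
      rw [hG a, hG b] at h2
      linarith
    have h3 : |G a x - G b x| ≤ |a - b| := by
      rw [← Real.dist_eq]
      exact (BoundedContinuousFunction.dist_coe_le_dist x).trans h1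
    have h4 : a + Real.exp (lam * |x|) * G a x - (b + Real.exp (lam * |x|) * G b x) =
        (a - b) + Real.exp (lam * |x|) * (G a x - G b x) := by ring
    show |a + Real.exp (lam * |x|) * G a x - (b + Real.exp (lam * |x|) * G b x)| ≤ _
    rw [h4]
    refine (abs_add_le _ _).trans ?_
    rw [abs_mul, abs_of_pos (Real.exp_pos _)]
    have h5 : Real.exp (lam * |x|) ≤ Real.exp (lam * R) :=
      Real.exp_le_exp.mpr (mul_le_mul_of_nonneg_left hx hl.le)
    have h6 : Real.exp (lam * |x|) * |G a x - G b x| ≤ Real.exp (lam * R) * |a - b| :=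
      mul_le_mul h5 h3 (abs_nonneg _) (Real.exp_pos _).le
    linarith

end Pool.Agent.W174.GH
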